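import Pool.Agent.Strip051.LB.ChB00U_pp_012.C1

/-! # LINE tight chart ChB00U_pp_012: boxes, assembly -/

namespace Pool.Agent.Strip051.LB.ChB00U_pp_012

open Pool.Agent.Strip051.Box Pool.Agent.Strip051.Box2

theorem all (x1 x2 : ℝ) (h : Mem S b0 x1 x2) : Q x1 x2 := by
  exact chk_all c0 x1 x2 h

end Pool.Agent.Strip051.LB.ChB00U_pp_012
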