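import Pool.Agent.Strip051.Box.C2
import Pool.Agent.Strip051.Box.S30
import Pool.Agent.Strip051.LB.Fc.F2

/-! # LINE tight chart ChB00U_pp_012 -/

namespace Pool.Agent.Strip051.LB.ChB00U_pp_012

open Pool.Agent.Strip051.Box Pool.Agent.Strip051.Box2

open Pool.Agent.Strip051.LB.Fc Pool.Agent.Strip051.LB.Fc.F2 Pool.Agent.Strip051.LB.Fn Pool.Agent.Strip051.LB.Fn.F2

/-- coordinates of a point of the box -/
def In (b : Bx) (E : Pt) (x1 x2 : ℝ) : Prop :=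
  (S : ℝ) * x1 = ((b.p1 : ℝ) - b.n1) + b.q1 * E.e1 ∧ (S : ℝ) * x2 = ((b.p2 : ℝ) - b.n2) + b.q2 * E.e2

variable {b : Bx} {E : Pt} {x1 x2 : ℝ}

def t0 (b : Bx) : TM := X1 b
noncomputable def v0 (x1 _x2 : ℝ) : ℝ := x1
theorem h0 (h : In b E x1 x2) : Enc S E (t0 b) (v0 x1 x2) := enc_X1 h.1

def t1 (b : Bx) : TM := X2 b
noncomputable def v1 (_x1 x2 : ℝ) : ℝ := x2
theorem h1 (h : In b E x1 x2) : Enc S E (t1 b) (v1 x1 x2) := enc_X2 h.2

def t2 (_b : Bx) : TM := tconst 1859775393 0 1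
noncomputable def v2 (_x1 _x2 : ℝ) : ℝ := Real.sqrt ((3 : ℕ) : ℝ)
theorem h2 (_h : In b E x1 x2) : Enc S E (t2 b) (v2 x1 x2) := enc_sqrtn E (by decide) (by decide)

def t3 (b : Bx) : TM := tscale 1 2 (t2 b)
noncomputable def v3 (x1 x2 : ℝ) : ℝ := ((1 : ℕ) : ℝ) / ((2 : ℕ) : ℝ) * v2 x1 x2
theorem h3 (h : In b E x1 x2) : Enc S E (t3 b) (v3 x1 x2) := enc_scale 1 (by norm_num) (h2 h)

def t4 (b : Bx) : TM := tsq S (t0 b)
noncomputable def v4 (x1 x2 : ℝ) : ℝ := (v0 x1 x2) ^ 2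
theorem h4 (h : In b E x1 x2) : Enc S E (t4 b) (v4 x1 x2) := enc_sq hS (h0 h)

def t5 (_b : Bx) : TM := tconst (Nat.mul 1 S) 0 0
noncomputable def v5 (_x1 _x2 : ℝ) : ℝ := ((1 : ℕ) : ℝ)
theorem h5 (_h : In b E x1 x2) : Enc S E (t5 b) (v5 x1 x2) := enc_nc E 1

def t6 (b : Bx) : TM := tsub (t5 b) (t4 b)
noncomputable def v6 (x1 x2 : ℝ) : ℝ := v5 x1 x2 - v4 x1 x2
theorem h6 (h : In b E x1 x2) : Enc S E (t6 b) (v6 x1 x2) := enc_sub (h5 h) (h4 h)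

def t7 (b : Bx) : TM := tsqrt S (t6 b)
noncomputable def v7 (x1 x2 : ℝ) : ℝ := Real.sqrt (v6 x1 x2)
theorem h7 (h : In b E x1 x2) : Enc S E (t7 b) (v7 x1 x2) := enc_sqrt hS (h6 h)

def t9 (_b : Bx) : TM := tconst (Nat.div (Nat.mul 1 S) 2) 0 1
noncomputable def v9 (_x1 _x2 : ℝ) : ℝ := ((1 : ℕ) : ℝ) / ((2 : ℕ) : ℝ)
theorem h9 (_h : In b E x1 x2) : Enc S E (t9 b) (v9 x1 x2) := enc_rat E 1 (by norm_num)

def t11 (b : Bx) : TM := tscale 1 2 (t7 b)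
noncomputable def v11 (x1 x2 : ℝ) : ℝ := ((1 : ℕ) : ℝ) / ((2 : ℕ) : ℝ) * v7 x1 x2
theorem h11 (h : In b E x1 x2) : Enc S E (t11 b) (v11 x1 x2) := enc_scale 1 (by norm_num) (h7 h)

def t13 (b : Bx) : TM := tmul S (t0 b) (t3 b)
noncomputable def v13 (x1 x2 : ℝ) : ℝ := v0 x1 x2 * v3 x1 x2
theorem h13 (h : In b E x1 x2) : Enc S E (t13 b) (v13 x1 x2) := enc_mul hS (h0 h) (h3 h)

def t15 (b : Bx) : TM := tscale 1 2 (t0 b)
noncomputable def v15 (x1 x2 : ℝ) : ℝ := ((1 : ℕ) : ℝ) / ((2 : ℕ) : ℝ) * v0 x1 x2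
theorem h15 (h : In b E x1 x2) : Enc S E (t15 b) (v15 x1 x2) := enc_scale 1 (by norm_num) (h0 h)

def t17 (b : Bx) : TM := tmul S (t7 b) (t3 b)
noncomputable def v17 (x1 x2 : ℝ) : ℝ := v7 x1 x2 * v3 x1 x2
theorem h17 (h : In b E x1 x2) : Enc S E (t17 b) (v17 x1 x2) := enc_mul hS (h7 h) (h3 h)

def t19 (b : Bx) : TM := tsub (t11 b) (t13 b)
noncomputable def v19 (x1 x2 : ℝ) : ℝ := v11 x1 x2 - v13 x1 x2
theorem h19 (h : In b E x1 x2) : Enc S E (t19 b) (v19 x1 x2) := enc_sub (h11 h) (h13 h)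

def t20 (b : Bx) : TM := tadd (t15 b) (t17 b)
noncomputable def v20 (x1 x2 : ℝ) : ℝ := v15 x1 x2 + v17 x1 x2
theorem h20 (h : In b E x1 x2) : Enc S E (t20 b) (v20 x1 x2) := enc_add (h15 h) (h17 h)

def t21 (b : Bx) : TM := tsub (t1 b) (t19 b)
noncomputable def v21 (x1 x2 : ℝ) : ℝ := v1 x1 x2 - v19 x1 x2
theorem h21 (h : In b E x1 x2) : Enc S E (t21 b) (v21 x1 x2) := enc_sub (h1 h) (h19 h)

def t22 (b : Bx) : TM := tsq S (t1 b)
noncomputable def v22 (x1 x2 : ℝ) : ℝ := (v1 x1 x2) ^ 2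
theorem h22 (h : In b E x1 x2) : Enc S E (t22 b) (v22 x1 x2) := enc_sq hS (h1 h)

def t23 (b : Bx) : TM := tsub (t5 b) (t22 b)
noncomputable def v23 (x1 x2 : ℝ) : ℝ := v5 x1 x2 - v22 x1 x2
theorem h23 (h : In b E x1 x2) : Enc S E (t23 b) (v23 x1 x2) := enc_sub (h5 h) (h22 h)

def t24 (b : Bx) : TM := tsqrt S (t23 b)
noncomputable def v24 (x1 x2 : ℝ) : ℝ := Real.sqrt (v23 x1 x2)
theorem h24 (h : In b E x1 x2) : Enc S E (t24 b) (v24 x1 x2) := enc_sqrt hS (h23 h)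

def t25 (b : Bx) : TM := tsub (t1 b) (t7 b)
noncomputable def v25 (x1 x2 : ℝ) : ℝ := v1 x1 x2 - v7 x1 x2
theorem h25 (h : In b E x1 x2) : Enc S E (t25 b) (v25 x1 x2) := enc_sub (h1 h) (h7 h)

def t26 (b : Bx) : TM := tsub (t24 b) (t0 b)
noncomputable def v26 (x1 x2 : ℝ) : ℝ := v24 x1 x2 - v0 x1 x2
theorem h26 (h : In b E x1 x2) : Enc S E (t26 b) (v26 x1 x2) := enc_sub (h24 h) (h0 h)

def t27 (b : Bx) : TM := tsub (t19 b) (t1 b)
noncomputable def v27 (x1 x2 : ℝ) : ℝ := v19 x1 x2 - v1 x1 x2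
theorem h27 (h : In b E x1 x2) : Enc S E (t27 b) (v27 x1 x2) := enc_sub (h19 h) (h1 h)

def t28 (b : Bx) : TM := tmul S (t2 b) (t0 b)
noncomputable def v28 (x1 x2 : ℝ) : ℝ := v2 x1 x2 * v0 x1 x2
theorem h28 (h : In b E x1 x2) : Enc S E (t28 b) (v28 x1 x2) := enc_mul hS (h2 h) (h0 h)

def t29 (b : Bx) : TM := tsub (t7 b) (t28 b)
noncomputable def v29 (x1 x2 : ℝ) : ℝ := v7 x1 x2 - v28 x1 x2
theorem h29 (h : In b E x1 x2) : Enc S E (t29 b) (v29 x1 x2) := enc_sub (h7 h) (h28 h)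

def t30 (b : Bx) : TM := tadd (t5 b) (t7 b)
noncomputable def v30 (x1 x2 : ℝ) : ℝ := v5 x1 x2 + v7 x1 x2
theorem h30 (h : In b E x1 x2) : Enc S E (t30 b) (v30 x1 x2) := enc_add (h5 h) (h7 h)

def t31 (b : Bx) : TM := tmul S (t29 b) (t30 b)
noncomputable def v31 (x1 x2 : ℝ) : ℝ := v29 x1 x2 * v30 x1 x2
theorem h31 (h : In b E x1 x2) : Enc S E (t31 b) (v31 x1 x2) := enc_mul hS (h29 h) (h30 h)

def t32 (b : Bx) : TM := tsub (t30 b) (t28 b)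
noncomputable def v32 (x1 x2 : ℝ) : ℝ := v30 x1 x2 - v28 x1 x2
theorem h32 (h : In b E x1 x2) : Enc S E (t32 b) (v32 x1 x2) := enc_sub (h30 h) (h28 h)

def t33 (b : Bx) : TM := tinv S (t32 b)
noncomputable def v33 (x1 x2 : ℝ) : ℝ := (v32 x1 x2)⁻¹
theorem h33 (h : In b E x1 x2) : Enc S E (t33 b) (v33 x1 x2) := enc_inv hS (h32 h)

def t34 (b : Bx) : TM := tmul S (t31 b) (t33 b)
noncomputable def v34 (x1 x2 : ℝ) : ℝ := v31 x1 x2 * v33 x1 x2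
theorem h34 (h : In b E x1 x2) : Enc S E (t34 b) (v34 x1 x2) := enc_mul hS (h31 h) (h33 h)

def t35 (b : Bx) : TM := tsq S (t25 b)
noncomputable def v35 (x1 x2 : ℝ) : ℝ := (v25 x1 x2) ^ 2
theorem h35 (h : In b E x1 x2) : Enc S E (t35 b) (v35 x1 x2) := enc_sq hS (h25 h)

def t36 (b : Bx) : TM := tsq S (t26 b)
noncomputable def v36 (x1 x2 : ℝ) : ℝ := (v26 x1 x2) ^ 2
theorem h36 (h : In b E x1 x2) : Enc S E (t36 b) (v36 x1 x2) := enc_sq hS (h26 h)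

def t37 (b : Bx) : TM := tadd (t35 b) (t36 b)
noncomputable def v37 (x1 x2 : ℝ) : ℝ := v35 x1 x2 + v36 x1 x2
theorem h37 (h : In b E x1 x2) : Enc S E (t37 b) (v37 x1 x2) := enc_add (h35 h) (h36 h)

def t41 (b : Bx) : TM := tsub (t19 b) (t7 b)
noncomputable def v41 (x1 x2 : ℝ) : ℝ := v19 x1 x2 - v7 x1 x2
theorem h41 (h : In b E x1 x2) : Enc S E (t41 b) (v41 x1 x2) := enc_sub (h19 h) (h7 h)

def t43 (b : Bx) : TM := tadd (t25 b) (t41 b)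
noncomputable def v43 (x1 x2 : ℝ) : ℝ := v25 x1 x2 + v41 x1 x2
theorem h43 (h : In b E x1 x2) : Enc S E (t43 b) (v43 x1 x2) := enc_add (h25 h) (h41 h)

def t46 (b : Bx) : TM := tadd (t1 b) (t19 b)
noncomputable def v46 (x1 x2 : ℝ) : ℝ := v1 x1 x2 + v19 x1 x2
theorem h46 (h : In b E x1 x2) : Enc S E (t46 b) (v46 x1 x2) := enc_add (h1 h) (h19 h)

def t49 (b : Bx) : TM := tadd (t24 b) (t20 b)
noncomputable def v49 (x1 x2 : ℝ) : ℝ := v24 x1 x2 + v20 x1 x2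
theorem h49 (h : In b E x1 x2) : Enc S E (t49 b) (v49 x1 x2) := enc_add (h24 h) (h20 h)

def t50 (b : Bx) : TM := tinv S (t49 b)
noncomputable def v50 (x1 x2 : ℝ) : ℝ := (v49 x1 x2)⁻¹
theorem h50 (h : In b E x1 x2) : Enc S E (t50 b) (v50 x1 x2) := enc_inv hS (h49 h)

def t51 (b : Bx) : TM := tmul S (t46 b) (t50 b)
noncomputable def v51 (x1 x2 : ℝ) : ℝ := v46 x1 x2 * v50 x1 x2
theorem h51 (h : In b E x1 x2) : Enc S E (t51 b) (v51 x1 x2) := enc_mul hS (h46 h) (h50 h)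

def t52 (b : Bx) : TM := tsub (t20 b) (t0 b)
noncomputable def v52 (x1 x2 : ℝ) : ℝ := v20 x1 x2 - v0 x1 x2
theorem h52 (h : In b E x1 x2) : Enc S E (t52 b) (v52 x1 x2) := enc_sub (h20 h) (h0 h)

def t54 (b : Bx) : TM := tadd (t26 b) (t52 b)
noncomputable def v54 (x1 x2 : ℝ) : ℝ := v26 x1 x2 + v52 x1 x2
theorem h54 (h : In b E x1 x2) : Enc S E (t54 b) (v54 x1 x2) := enc_add (h26 h) (h52 h)

def t55 (b : Bx) : TM := tmul S (t51 b) (t54 b)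
noncomputable def v55 (x1 x2 : ℝ) : ℝ := v51 x1 x2 * v54 x1 x2
theorem h55 (h : In b E x1 x2) : Enc S E (t55 b) (v55 x1 x2) := enc_mul hS (h51 h) (h54 h)

def t57 (b : Bx) : TM := tsub (t55 b) (t43 b)
noncomputable def v57 (x1 x2 : ℝ) : ℝ := v55 x1 x2 - v43 x1 x2
theorem h57 (h : In b E x1 x2) : Enc S E (t57 b) (v57 x1 x2) := enc_sub (h55 h) (h43 h)

def t59 (b : Bx) : TM := tsub (t7 b) (t1 b)
noncomputable def v59 (x1 x2 : ℝ) : ℝ := v7 x1 x2 - v1 x1 x2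
theorem h59 (h : In b E x1 x2) : Enc S E (t59 b) (v59 x1 x2) := enc_sub (h7 h) (h1 h)

def t60 (b : Bx) : TM := tsub (t5 b) (t36 b)
noncomputable def v60 (x1 x2 : ℝ) : ℝ := v5 x1 x2 - v36 x1 x2
theorem h60 (h : In b E x1 x2) : Enc S E (t60 b) (v60 x1 x2) := enc_sub (h5 h) (h36 h)

def t61 (b : Bx) : TM := tsqrt S (t60 b)
noncomputable def v61 (x1 x2 : ℝ) : ℝ := Real.sqrt (v60 x1 x2)
theorem h61 (h : In b E x1 x2) : Enc S E (t61 b) (v61 x1 x2) := enc_sqrt hS (h60 h)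

def t62 (b : Bx) : TM := tadd (t13 b) (t11 b)
noncomputable def v62 (x1 x2 : ℝ) : ℝ := v13 x1 x2 + v11 x1 x2
theorem h62 (h : In b E x1 x2) : Enc S E (t62 b) (v62 x1 x2) := enc_add (h13 h) (h11 h)

def t65 (b : Bx) : TM := tmul S (t2 b) (t26 b)
noncomputable def v65 (x1 x2 : ℝ) : ℝ := v2 x1 x2 * v26 x1 x2
theorem h65 (h : In b E x1 x2) : Enc S E (t65 b) (v65 x1 x2) := enc_mul hS (h2 h) (h26 h)

def t66 (b : Bx) : TM := tsub (t65 b) (t61 b)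
noncomputable def v66 (x1 x2 : ℝ) : ℝ := v65 x1 x2 - v61 x1 x2
theorem h66 (h : In b E x1 x2) : Enc S E (t66 b) (v66 x1 x2) := enc_sub (h65 h) (h61 h)

def t68 (b : Bx) : TM := tadd (t5 b) (t65 b)
noncomputable def v68 (x1 x2 : ℝ) : ℝ := v5 x1 x2 + v65 x1 x2
theorem h68 (h : In b E x1 x2) : Enc S E (t68 b) (v68 x1 x2) := enc_add (h5 h) (h65 h)

def t69 (b : Bx) : TM := tsub (t68 b) (t61 b)
noncomputable def v69 (x1 x2 : ℝ) : ℝ := v68 x1 x2 - v61 x1 x2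
theorem h69 (h : In b E x1 x2) : Enc S E (t69 b) (v69 x1 x2) := enc_sub (h68 h) (h61 h)

def t70 (b : Bx) : TM := tnat 2 (t69 b)
noncomputable def v70 (x1 x2 : ℝ) : ℝ := ((2 : ℕ) : ℝ) * v69 x1 x2
theorem h70 (h : In b E x1 x2) : Enc S E (t70 b) (v70 x1 x2) := enc_nat 2 (h69 h)

def t71 (b : Bx) : TM := tinv S (t70 b)
noncomputable def v71 (x1 x2 : ℝ) : ℝ := (v70 x1 x2)⁻¹
theorem h71 (h : In b E x1 x2) : Enc S E (t71 b) (v71 x1 x2) := enc_inv hS (h70 h)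

def t75 (b : Bx) : TM := tadd (t61 b) (t62 b)
noncomputable def v75 (x1 x2 : ℝ) : ℝ := v61 x1 x2 + v62 x1 x2
theorem h75 (h : In b E x1 x2) : Enc S E (t75 b) (v75 x1 x2) := enc_add (h61 h) (h62 h)

def t76 (b : Bx) : TM := tinv S (t75 b)
noncomputable def v76 (x1 x2 : ℝ) : ℝ := (v75 x1 x2)⁻¹
theorem h76 (h : In b E x1 x2) : Enc S E (t76 b) (v76 x1 x2) := enc_inv hS (h75 h)

def t77 (b : Bx) : TM := tmul S (t55 b) (t76 b)
noncomputable def v77 (x1 x2 : ℝ) : ℝ := v55 x1 x2 * v76 x1 x2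
theorem h77 (h : In b E x1 x2) : Enc S E (t77 b) (v77 x1 x2) := enc_mul hS (h55 h) (h76 h)

def t79 (b : Bx) : TM := tnat 2 (t62 b)
noncomputable def v79 (x1 x2 : ℝ) : ℝ := ((2 : ℕ) : ℝ) * v62 x1 x2
theorem h79 (h : In b E x1 x2) : Enc S E (t79 b) (v79 x1 x2) := enc_nat 2 (h62 h)

def t80 (b : Bx) : TM := tnat 2 (t77 b)
noncomputable def v80 (x1 x2 : ℝ) : ℝ := ((2 : ℕ) : ℝ) * v77 x1 x2
theorem h80 (h : In b E x1 x2) : Enc S E (t80 b) (v80 x1 x2) := enc_nat 2 (h77 h)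

def t82 (b : Bx) : TM := tadd (t5 b) (t79 b)
noncomputable def v82 (x1 x2 : ℝ) : ℝ := v5 x1 x2 + v79 x1 x2
theorem h82 (h : In b E x1 x2) : Enc S E (t82 b) (v82 x1 x2) := enc_add (h5 h) (h79 h)

def t83 (b : Bx) : TM := tmul S (t2 b) (t52 b)
noncomputable def v83 (x1 x2 : ℝ) : ℝ := v2 x1 x2 * v52 x1 x2
theorem h83 (h : In b E x1 x2) : Enc S E (t83 b) (v83 x1 x2) := enc_mul hS (h2 h) (h52 h)

def t84 (b : Bx) : TM := tmul S (t2 b) (t51 b)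
noncomputable def v84 (x1 x2 : ℝ) : ℝ := v2 x1 x2 * v51 x1 x2
theorem h84 (h : In b E x1 x2) : Enc S E (t84 b) (v84 x1 x2) := enc_mul hS (h2 h) (h51 h)

def t85 (b : Bx) : TM := tsub (t83 b) (t62 b)
noncomputable def v85 (x1 x2 : ℝ) : ℝ := v83 x1 x2 - v62 x1 x2
theorem h85 (h : In b E x1 x2) : Enc S E (t85 b) (v85 x1 x2) := enc_sub (h83 h) (h62 h)

def t86 (b : Bx) : TM := tadd (t84 b) (t77 b)
noncomputable def v86 (x1 x2 : ℝ) : ℝ := v84 x1 x2 + v77 x1 x2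
theorem h86 (h : In b E x1 x2) : Enc S E (t86 b) (v86 x1 x2) := enc_add (h84 h) (h77 h)

def t87 (b : Bx) : TM := tmul S (t82 b) (t85 b)
noncomputable def v87 (x1 x2 : ℝ) : ℝ := v82 x1 x2 * v85 x1 x2
theorem h87 (h : In b E x1 x2) : Enc S E (t87 b) (v87 x1 x2) := enc_mul hS (h82 h) (h85 h)

def t88 (b : Bx) : TM := tmul S (t80 b) (t66 b)
noncomputable def v88 (x1 x2 : ℝ) : ℝ := v80 x1 x2 * v66 x1 x2
theorem h88 (h : In b E x1 x2) : Enc S E (t88 b) (v88 x1 x2) := enc_mul hS (h80 h) (h66 h)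

def t90 (b : Bx) : TM := tmul S (t82 b) (t86 b)
noncomputable def v90 (x1 x2 : ℝ) : ℝ := v82 x1 x2 * v86 x1 x2
theorem h90 (h : In b E x1 x2) : Enc S E (t90 b) (v90 x1 x2) := enc_mul hS (h82 h) (h86 h)

def t91 (b : Bx) : TM := tsub (t90 b) (t88 b)
noncomputable def v91 (x1 x2 : ℝ) : ℝ := v90 x1 x2 - v88 x1 x2
theorem h91 (h : In b E x1 x2) : Enc S E (t91 b) (v91 x1 x2) := enc_sub (h90 h) (h88 h)

def t92 (b : Bx) : TM := tadd (t5 b) (t83 b)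
noncomputable def v92 (x1 x2 : ℝ) : ℝ := v5 x1 x2 + v83 x1 x2
theorem h92 (h : In b E x1 x2) : Enc S E (t92 b) (v92 x1 x2) := enc_add (h5 h) (h83 h)

def t93 (b : Bx) : TM := tsub (t92 b) (t62 b)
noncomputable def v93 (x1 x2 : ℝ) : ℝ := v92 x1 x2 - v62 x1 x2
theorem h93 (h : In b E x1 x2) : Enc S E (t93 b) (v93 x1 x2) := enc_sub (h92 h) (h62 h)

def t94 (b : Bx) : TM := tnat 2 (t93 b)
noncomputable def v94 (x1 x2 : ℝ) : ℝ := ((2 : ℕ) : ℝ) * v93 x1 x2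
theorem h94 (h : In b E x1 x2) : Enc S E (t94 b) (v94 x1 x2) := enc_nat 2 (h93 h)

def t95 (b : Bx) : TM := tnat 2 (t86 b)
noncomputable def v95 (x1 x2 : ℝ) : ℝ := ((2 : ℕ) : ℝ) * v86 x1 x2
theorem h95 (h : In b E x1 x2) : Enc S E (t95 b) (v95 x1 x2) := enc_nat 2 (h86 h)

def t96 (b : Bx) : TM := tinv S (t94 b)
noncomputable def v96 (x1 x2 : ℝ) : ℝ := (v94 x1 x2)⁻¹
theorem h96 (h : In b E x1 x2) : Enc S E (t96 b) (v96 x1 x2) := enc_inv hS (h94 h)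

def t97 (b : Bx) : TM := tmul S (t71 b) (t96 b)
noncomputable def v97 (x1 x2 : ℝ) : ℝ := v71 x1 x2 * v96 x1 x2
theorem h97 (h : In b E x1 x2) : Enc S E (t97 b) (v97 x1 x2) := enc_mul hS (h71 h) (h96 h)

def t98 (b : Bx) : TM := tmul S (t95 b) (t97 b)
noncomputable def v98 (x1 x2 : ℝ) : ℝ := v95 x1 x2 * v97 x1 x2
theorem h98 (h : In b E x1 x2) : Enc S E (t98 b) (v98 x1 x2) := enc_mul hS (h95 h) (h97 h)

def t101 (b : Bx) : TM := tmul S (t91 b) (t71 b)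
noncomputable def v101 (x1 x2 : ℝ) : ℝ := v91 x1 x2 * v71 x1 x2
theorem h101 (h : In b E x1 x2) : Enc S E (t101 b) (v101 x1 x2) := enc_mul hS (h91 h) (h71 h)

def t102 (b : Bx) : TM := tmul S (t87 b) (t98 b)
noncomputable def v102 (x1 x2 : ℝ) : ℝ := v87 x1 x2 * v98 x1 x2
theorem h102 (h : In b E x1 x2) : Enc S E (t102 b) (v102 x1 x2) := enc_mul hS (h87 h) (h98 h)

def t104 (b : Bx) : TM := tsub (t101 b) (t102 b)
noncomputable def v104 (x1 x2 : ℝ) : ℝ := v101 x1 x2 - v102 x1 x2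
theorem h104 (h : In b E x1 x2) : Enc S E (t104 b) (v104 x1 x2) := enc_sub (h101 h) (h102 h)

def t105 (b : Bx) : TM := kxq1_t (t59 b) (t26 b)
noncomputable def v105 (x1 x2 : ℝ) : ℝ := kxq1_v (v59 x1 x2) (v26 x1 x2)
theorem h105 (h : In b E x1 x2) : Enc S E (t105 b) (v105 x1 x2) := kxq1_enc (h59 h) (h26 h)

def t106 (b : Bx) : TM := tadd (t59 b) (t61 b)
noncomputable def v106 (x1 x2 : ℝ) : ℝ := v59 x1 x2 + v61 x1 x2
theorem h106 (h : In b E x1 x2) : Enc S E (t106 b) (v106 x1 x2) := enc_add (h59 h) (h61 h)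

def t107 (b : Bx) : TM := f2m_t (t26 b)
noncomputable def v107 (x1 x2 : ℝ) : ℝ := f2m_v (v26 x1 x2)
theorem h107 (h : In b E x1 x2) : Enc S E (t107 b) (v107 x1 x2) := f2m_enc (h26 h)

def t108 (b : Bx) : TM := tsub (t107 b) (t59 b)
noncomputable def v108 (x1 x2 : ℝ) : ℝ := v107 x1 x2 - v59 x1 x2
theorem h108 (h : In b E x1 x2) : Enc S E (t108 b) (v108 x1 x2) := enc_sub (h107 h) (h59 h)

def t114 (b : Bx) : TM := tmul S (t57 b) (t105 b)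
noncomputable def v114 (x1 x2 : ℝ) : ℝ := v57 x1 x2 * v105 x1 x2
theorem h114 (h : In b E x1 x2) : Enc S E (t114 b) (v114 x1 x2) := enc_mul hS (h57 h) (h105 h)

def t115 (b : Bx) : TM := tinv S (t106 b)
noncomputable def v115 (x1 x2 : ℝ) : ℝ := (v106 x1 x2)⁻¹
theorem h115 (h : In b E x1 x2) : Enc S E (t115 b) (v115 x1 x2) := enc_inv hS (h106 h)

def t116 (b : Bx) : TM := tmul S (t114 b) (t115 b)
noncomputable def v116 (x1 x2 : ℝ) : ℝ := v114 x1 x2 * v115 x1 x2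
theorem h116 (h : In b E x1 x2) : Enc S E (t116 b) (v116 x1 x2) := enc_mul hS (h114 h) (h115 h)

def t117 (b : Bx) : TM := tadd (t104 b) (t116 b)
noncomputable def v117 (x1 x2 : ℝ) : ℝ := v104 x1 x2 + v116 x1 x2
theorem h117 (h : In b E x1 x2) : Enc S E (t117 b) (v117 x1 x2) := enc_add (h104 h) (h116 h)

def t119 (b : Bx) : TM := tmul S (t7 b) (t24 b)
noncomputable def v119 (x1 x2 : ℝ) : ℝ := v7 x1 x2 * v24 x1 x2
theorem h119 (h : In b E x1 x2) : Enc S E (t119 b) (v119 x1 x2) := enc_mul hS (h7 h) (h24 h)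

def t120 (b : Bx) : TM := tmul S (t1 b) (t0 b)
noncomputable def v120 (x1 x2 : ℝ) : ℝ := v1 x1 x2 * v0 x1 x2
theorem h120 (h : In b E x1 x2) : Enc S E (t120 b) (v120 x1 x2) := enc_mul hS (h1 h) (h0 h)

def t121 (b : Bx) : TM := tsub (t119 b) (t120 b)
noncomputable def v121 (x1 x2 : ℝ) : ℝ := v119 x1 x2 - v120 x1 x2
theorem h121 (h : In b E x1 x2) : Enc S E (t121 b) (v121 x1 x2) := enc_sub (h119 h) (h120 h)

def t122 (b : Bx) : TM := tinv S (t2 b)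
noncomputable def v122 (x1 x2 : ℝ) : ℝ := (v2 x1 x2)⁻¹
theorem h122 (h : In b E x1 x2) : Enc S E (t122 b) (v122 x1 x2) := enc_inv hS (h2 h)

def t123 (b : Bx) : TM := tmul S (t121 b) (t122 b)
noncomputable def v123 (x1 x2 : ℝ) : ℝ := v121 x1 x2 * v122 x1 x2
theorem h123 (h : In b E x1 x2) : Enc S E (t123 b) (v123 x1 x2) := enc_mul hS (h121 h) (h122 h)

def t124 (b : Bx) : TM := tsub (t123 b) (t9 b)
noncomputable def v124 (x1 x2 : ℝ) : ℝ := v123 x1 x2 - v9 x1 x2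
theorem h124 (h : In b E x1 x2) : Enc S E (t124 b) (v124 x1 x2) := enc_sub (h123 h) (h9 h)

def t126 (b : Bx) : TM := tmul S (t7 b) (t51 b)
noncomputable def v126 (x1 x2 : ℝ) : ℝ := v7 x1 x2 * v51 x1 x2
theorem h126 (h : In b E x1 x2) : Enc S E (t126 b) (v126 x1 x2) := enc_mul hS (h7 h) (h51 h)

def t128 (b : Bx) : TM := tneg (t0 b)
noncomputable def v128 (x1 x2 : ℝ) : ℝ := -(v0 x1 x2)
theorem h128 (h : In b E x1 x2) : Enc S E (t128 b) (v128 x1 x2) := enc_neg (h0 h)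

def t130 (b : Bx) : TM := tadd (t126 b) (t0 b)
noncomputable def v130 (x1 x2 : ℝ) : ℝ := v126 x1 x2 + v0 x1 x2
theorem h130 (h : In b E x1 x2) : Enc S E (t130 b) (v130 x1 x2) := enc_add (h126 h) (h0 h)

def t132 (b : Bx) : TM := tmul S (t130 b) (t122 b)
noncomputable def v132 (x1 x2 : ℝ) : ℝ := v130 x1 x2 * v122 x1 x2
theorem h132 (h : In b E x1 x2) : Enc S E (t132 b) (v132 x1 x2) := enc_mul hS (h130 h) (h122 h)

def t134 (b : Bx) : TM := tsub (t26 b) (t3 b)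
noncomputable def v134 (x1 x2 : ℝ) : ℝ := v26 x1 x2 - v3 x1 x2
theorem h134 (h : In b E x1 x2) : Enc S E (t134 b) (v134 x1 x2) := enc_sub (h26 h) (h3 h)

def t135 (b : Bx) : TM := tsub (t24 b) (t3 b)
noncomputable def v135 (x1 x2 : ℝ) : ℝ := v24 x1 x2 - v3 x1 x2
theorem h135 (h : In b E x1 x2) : Enc S E (t135 b) (v135 x1 x2) := enc_sub (h24 h) (h3 h)

def t136 (b : Bx) : TM := tsub (t117 b) (t5 b)
noncomputable def v136 (x1 x2 : ℝ) : ℝ := v117 x1 x2 - v5 x1 x2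
theorem h136 (h : In b E x1 x2) : Enc S E (t136 b) (v136 x1 x2) := enc_sub (h117 h) (h5 h)

def t138 (b : Bx) : TM := tmul S (t51 b) (t34 b)
noncomputable def v138 (x1 x2 : ℝ) : ℝ := v51 x1 x2 * v34 x1 x2
theorem h138 (h : In b E x1 x2) : Enc S E (t138 b) (v138 x1 x2) := enc_mul hS (h51 h) (h34 h)

def t139 (b : Bx) : TM := tsub (t128 b) (t138 b)
noncomputable def v139 (x1 x2 : ℝ) : ℝ := v128 x1 x2 - v138 x1 x2
theorem h139 (h : In b E x1 x2) : Enc S E (t139 b) (v139 x1 x2) := enc_sub (h128 h) (h138 h)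

def t142 (b : Bx) : TM := tmul S (t135 b) (t136 b)
noncomputable def v142 (x1 x2 : ℝ) : ℝ := v135 x1 x2 * v136 x1 x2
theorem h142 (h : In b E x1 x2) : Enc S E (t142 b) (v142 x1 x2) := enc_mul hS (h135 h) (h136 h)

def t143 (b : Bx) : TM := tsub (t139 b) (t142 b)
noncomputable def v143 (x1 x2 : ℝ) : ℝ := v139 x1 x2 - v142 x1 x2
theorem h143 (h : In b E x1 x2) : Enc S E (t143 b) (v143 x1 x2) := enc_sub (h139 h) (h142 h)

def t144 (b : Bx) : TM := tsub (t3 b) (t26 b)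
noncomputable def v144 (x1 x2 : ℝ) : ℝ := v3 x1 x2 - v26 x1 x2
theorem h144 (h : In b E x1 x2) : Enc S E (t144 b) (v144 x1 x2) := enc_sub (h3 h) (h26 h)

def t145 (b : Bx) : TM := tsub (t3 b) (t24 b)
noncomputable def v145 (x1 x2 : ℝ) : ℝ := v3 x1 x2 - v24 x1 x2
theorem h145 (h : In b E x1 x2) : Enc S E (t145 b) (v145 x1 x2) := enc_sub (h3 h) (h24 h)

def t146 (b : Bx) : TM := qn_t (t135 b) (t144 b) (t132 b) (t143 b) (t136 b)
noncomputable def v146 (x1 x2 : ℝ) : ℝ := qn_v (v135 x1 x2) (v144 x1 x2) (v132 x1 x2) (v143 x1 x2) (v136 x1 x2)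
theorem h146 (h : In b E x1 x2) : Enc S E (t146 b) (v146 x1 x2) := qn_enc (h135 h) (h144 h) (h132 h) (h143 h) (h136 h)

def t147 (b : Bx) : TM := tscale 1 4 (t2 b)
noncomputable def v147 (x1 x2 : ℝ) : ℝ := ((1 : ℕ) : ℝ) / ((4 : ℕ) : ℝ) * v2 x1 x2
theorem h147 (h : In b E x1 x2) : Enc S E (t147 b) (v147 x1 x2) := enc_scale 1 (by norm_num) (h2 h)

def t149 (b : Bx) : TM := tsub (t0 b) (t147 b)
noncomputable def v149 (x1 x2 : ℝ) : ℝ := v0 x1 x2 - v147 x1 x2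
theorem h149 (h : In b E x1 x2) : Enc S E (t149 b) (v149 x1 x2) := enc_sub (h0 h) (h147 h)

def t151 (b : Bx) : TM := tsub (t147 b) (t26 b)
noncomputable def v151 (x1 x2 : ℝ) : ℝ := v147 x1 x2 - v26 x1 x2
theorem h151 (h : In b E x1 x2) : Enc S E (t151 b) (v151 x1 x2) := enc_sub (h147 h) (h26 h)

def t152 (b : Bx) : TM := tscale 3 4 (t2 b)
noncomputable def v152 (x1 x2 : ℝ) : ℝ := ((3 : ℕ) : ℝ) / ((4 : ℕ) : ℝ) * v2 x1 x2
theorem h152 (h : In b E x1 x2) : Enc S E (t152 b) (v152 x1 x2) := enc_scale 3 (by norm_num) (h2 h)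

def t154 (b : Bx) : TM := tsub (t24 b) (t152 b)
noncomputable def v154 (x1 x2 : ℝ) : ℝ := v24 x1 x2 - v152 x1 x2
theorem h154 (h : In b E x1 x2) : Enc S E (t154 b) (v154 x1 x2) := enc_sub (h24 h) (h152 h)

def t155 (_b : Bx) : TM := tconst (Nat.div (Nat.mul 1 S) 16) 0 1
noncomputable def v155 (_x1 _x2 : ℝ) : ℝ := ((1 : ℕ) : ℝ) / ((16 : ℕ) : ℝ)
theorem h155 (_h : In b E x1 x2) : Enc S E (t155 b) (v155 x1 x2) := enc_rat E 1 (by norm_num)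

def t156 (b : Bx) : TM := tsub (t27 b) (t155 b)
noncomputable def v156 (x1 x2 : ℝ) : ℝ := v27 x1 x2 - v155 x1 x2
theorem h156 (h : In b E x1 x2) : Enc S E (t156 b) (v156 x1 x2) := enc_sub (h27 h) (h155 h)

def t157 (b : Bx) : TM := tsub (t21 b) (t155 b)
noncomputable def v157 (x1 x2 : ℝ) : ℝ := v21 x1 x2 - v155 x1 x2
theorem h157 (h : In b E x1 x2) : Enc S E (t157 b) (v157 x1 x2) := enc_sub (h21 h) (h155 h)

def t158 (b : Bx) : TM := tsub (t0 b) (t24 b)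
noncomputable def v158 (x1 x2 : ℝ) : ℝ := v0 x1 x2 - v24 x1 x2
theorem h158 (h : In b E x1 x2) : Enc S E (t158 b) (v158 x1 x2) := enc_sub (h0 h) (h24 h)

def t159 (b : Bx) : TM := tsub (t5 b) (t37 b)
noncomputable def v159 (x1 x2 : ℝ) : ℝ := v5 x1 x2 - v37 x1 x2
theorem h159 (h : In b E x1 x2) : Enc S E (t159 b) (v159 x1 x2) := enc_sub (h5 h) (h37 h)

def t160 (b : Bx) : TM := tadd (t124 b) (t9 b)
noncomputable def v160 (x1 x2 : ℝ) : ℝ := v124 x1 x2 + v9 x1 x2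
theorem h160 (h : In b E x1 x2) : Enc S E (t160 b) (v160 x1 x2) := enc_add (h124 h) (h9 h)

def t161 (b : Bx) : TM := tneg (t160 b)
noncomputable def v161 (x1 x2 : ℝ) : ℝ := -(v160 x1 x2)
theorem h161 (h : In b E x1 x2) : Enc S E (t161 b) (v161 x1 x2) := enc_neg (h160 h)

def g0 (b : Bx) : Bool := and (pos (t57 b)) (and (pos (t23 b)) (and (pos (t49 b)) (and (pos (t60 b)) (and (pos (t75 b)) (and (pos (t70 b)) (and (pos (t94 b)) (and (pos (t106 b)) (and (pos (t108 b)) (and (pos (t32 b)) (or (pos (t21 b)) (pos (t146 b))))))))))))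

def l0 (b : Bx) : Nat := cond (g0 b) 0 (pickb 1 (t146 b) b)

def P0 (x1 x2 : ℝ) : Prop := 0 < v57 x1 x2 ∧ 0 < v23 x1 x2 ∧ 0 < v49 x1 x2 ∧ 0 < v60 x1 x2 ∧ 0 < v75 x1 x2 ∧ 0 < v70 x1 x2 ∧ 0 < v94 x1 x2 ∧ 0 < v106 x1 x2 ∧ 0 < v108 x1 x2 ∧ 0 < v32 x1 x2 ∧ (0 < v21 x1 x2 ∨ 0 < v146 x1 x2)

theorem l0_sound (h : In b E x1 x2) (e : l0 b = 0) : P0 x1 x2 := by
  have e1 : g0 b = true := by
    rcases e2 : g0 b with _ | _
    · unfold l0 at e; rw [e2, cond_false] at e; exact absurd e (pickb_ne _ _ _)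
    · rfl
  exact ⟨pos_sound hS (h57 h) (Bool.and_eq_true_iff.mp e1).1, ⟨pos_sound hS (h23 h) (Bool.and_eq_true_iff.mp (Bool.and_eq_true_iff.mp e1).2).1, ⟨pos_sound hS (h49 h) (Bool.and_eq_true_iff.mp (Bool.and_eq_true_iff.mp (Bool.and_eq_true_iff.mp e1).2).2).1, ⟨pos_sound hS (h60 h) (Bool.and_eq_true_iff.mp (Bool.and_eq_true_iff.mp (Bool.and_eq_true_iff.mp (Bool.and_eq_true_iff.mp e1).2).2).2).1, ⟨pos_sound hS (h75 h) (Bool.and_eq_true_iff.mp (Bool.and_eq_true_iff.mp (Bool.and_eq_true_iff.mp (Bool.and_eq_true_iff.mp (Bool.and_eq_true_iff.mp e1).2).2).2).2).1, ⟨pos_sound hS (h70 h) (Bool.and_eq_true_iff.mp (Bool.and_eq_true_iff.mp (Bool.and_eq_true_iff.mp (Bool.and_eq_true_iff.mp (Bool.and_eq_true_iff.mp (Bool.and_eq_true_iff.mp e1).2).2).2).2).2).1, ⟨pos_sound hS (h94 h) (Bool.and_eq_true_iff.mp (Bool.and_eq_true_iff.mp (Bool.and_eq_true_iff.mp (Bool.and_eq_true_iff.mp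 (Bool.and_eq_true_iff.mp (Bool.and_eq_true_iff.mp (Bool.and_eq_true_iff.mp e1).2).2).2).2).2).2).1, ⟨pos_sound hS (h106 h) (Bool.and_eq_true_iff.mp (Bool.and_eq_true_iff.mp (Bool.and_eq_true_iff.mp (Bool.and_eq_true_iff.mp (Bool.and_eq_true_iff.mp (Bool.and_eq_true_iff.mp (Bool.and_eq_true_iff.mp (Bool.and_eq_true_iff.mp e1).2).2).2).2).2).2).2).1, ⟨pos_sound hS (h108 h) (Bool.and_eq_true_iff.mp (Bool.and_eq_true_iff.mp (Bool.and_eq_true_iff.mp (Bool.and_eq_true_iff.mp (Bool.and_eq_true_iff.mp (Bool.and_eq_true_iff.mp (Bool.and_eq_true_iff.mp (Bool.and_eq_true_iff.mp (Bool.and_eq_true_iff.mp e1).2).2).2).2).2).2).2).2).1, ⟨pos_sound hS (h32 h) (Bool.and_eq_true_iff.mp (Bool.and_eq_true_iff.mp (Bool.and_eq_true_iff.mp (Bool.and_eq_true_iff.mp (Bool.and_eq_true_iff.mp (Bool.and_eq_true_iff.mp (Bool.and_eq_true_iff.mp (Bool.and_eq_true_iff.mp (Bool.and_eq_true_iff.mp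 (Bool.and_eq_true_iff.mp e1).2).2).2).2).2).2).2).2).2).1, ((Bool.or_eq_true_iff.mp (Bool.and_eq_true_iff.mp (Bool.and_eq_true_iff.mp (Bool.and_eq_true_iff.mp (Bool.and_eq_true_iff.mp (Bool.and_eq_true_iff.mp (Bool.and_eq_true_iff.mp (Bool.and_eq_true_iff.mp (Bool.and_eq_true_iff.mp (Bool.and_eq_true_iff.mp (Bool.and_eq_true_iff.mp e1).2).2).2).2).2).2).2).2).2).2).imp (fun a => pos_sound hS (h21 h) a) (fun a => pos_sound hS (h146 h) a))⟩⟩⟩⟩⟩⟩⟩⟩⟩⟩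

def g1 (b : Bx) : Bool := or (pos (t149 b)) (or (pos (t151 b)) (or (pos (t134 b)) (or (pos (t145 b)) (or (pos (t154 b)) (or (pos (t156 b)) (or (pos (t157 b)) (or (pos (t158 b)) (or (pos (t159 b)) (pos (t161 b))))))))))

def l1 (b : Bx) : Nat := cond (g1 b) 0 (l0 b)

def P1 (x1 x2 : ℝ) : Prop := (0 < v149 x1 x2 ∨ 0 < v151 x1 x2 ∨ 0 < v134 x1 x2 ∨ 0 < v145 x1 x2 ∨ 0 < v154 x1 x2 ∨ 0 < v156 x1 x2 ∨ 0 < v157 x1 x2 ∨ 0 < v158 x1 x2 ∨ 0 < v159 x1 x2 ∨ 0 < v161 x1 x2) ∨ (P0 x1 x2)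

theorem l1_sound (h : In b E x1 x2) (e : l1 b = 0) : P1 x1 x2 := by
  unfold l1 at e
  rcases e1 : g1 b with _ | _
  · rw [e1, cond_false] at e
    have z0 : l0 b = 0 := e
    exact Or.inr (l0_sound h z0)
  · exact Or.inl (((Bool.or_eq_true_iff.mp e1).imp (fun a => pos_sound hS (h149 h) a) (fun a => ((Bool.or_eq_true_iff.mp a).imp (fun a => pos_sound hS (h151 h) a) (fun a => ((Bool.or_eq_true_iff.mp a).imp (fun a => pos_sound hS (h134 h) a) (fun a => ((Bool.or_eq_true_iff.mp a).imp (fun a => pos_sound hS (h145 h) a) (fun a => ((Bool.or_eq_true_iff.mp a).imp (fun a => pos_sound hS (h154 h) a) (fun a => ((Bool.or_eq_true_iff.mp a).imp (fun a => pos_sound hS (h156 h) a) (fun a => ((Bool.or_eq_true_iff.mp a).imp (fun a => pos_sound hS (h157 h) a) (fun a => ((Bool.or_eq_true_iff.mp a).imp (fun a => pos_sound hS (h158 h) a) (fun a => ((Bool.or_eq_true_iff.mp a).imp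 (fun a => pos_sound hS (h159 h) a) (fun a => pos_sound hS (h161 h) a)))))))))))))))))))

def f (b : Bx) : Nat := l1 b

/-- the statement -/
def Q (x1 x2 : ℝ) : Prop := P1 x1 x2

theorem f_sound (b : Bx) (hb : f b = 0) (x1 x2 : ℝ) (hm : Mem S b x1 x2) : Q x1 x2 := by
  obtain ⟨E, h⟩ := pt_of_mem hm
  have h : In b E x1 x2 := h
  unfold f at hb
  have e := hb
  have z1 : l1 b = 0 := e
  exact (l1_sound h z1)

/-- the box -/
def b0 : Bx := ⟨232471924, 0, 232471926, 268435456, 0, 268435457⟩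

theorem chk_all {n : ℕ} {b : Bx} (h : chk f n b = true) (x1 x2 : ℝ) (hm : Mem S b x1 x2) : Q x1 x2 :=
  chk_sound (fun b hb x1 x2 hm => f_sound b hb x1 x2 hm) n b h x1 x2 hm


end Pool.Agent.Strip051.LB.ChB00U_pp_012
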