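import Pool.Agent.Strip051.LB.ChB00U_pp_012.Defs
import Pool.Agent.Strip051.LB.Slope
import Pool.Agent.Strip051.LB.Star
import Pool.Agent.Strip051.LB.Cf

/-! # LINE tight chart ChB00U_pp_012: slopes -/

namespace Pool.Agent.Strip051.LB.ChB00U_pp_012

open Pool.Agent.Strip051.LB Pool.Agent.Strip051.LB.Fn Pool.Agent.Strip051.LB.Fc Pool.Agent.StripNear

set_option maxRecDepth 100000
set_option linter.all false

noncomputable def v38 (x1 x2 : ℝ) : ℝ := v37 x1 x2 - v5 x1 x2

noncomputable def v39 (x1 x2 : ℝ) : ℝ := -(v5 x1 x2)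

noncomputable def v42 (x1 x2 : ℝ) : ℝ := (v41 x1 x2) ^ 2

noncomputable def v44 (x1 x2 : ℝ) : ℝ := -(v43 x1 x2)

noncomputable def v45 (x1 x2 : ℝ) : ℝ := (v19 x1 x2) ^ 2

noncomputable def v47 (x1 x2 : ℝ) : ℝ := -(v46 x1 x2)

noncomputable def v48 (x1 x2 : ℝ) : ℝ := v5 x1 x2 - v45 x1 x2

noncomputable def v53 (x1 x2 : ℝ) : ℝ := (v52 x1 x2) ^ 2

noncomputable def v56 (x1 x2 : ℝ) : ℝ := v42 x1 x2 + v53 x1 x2

noncomputable def v58 (x1 x2 : ℝ) : ℝ := v56 x1 x2 - v5 x1 x2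

noncomputable def v63 (x1 x2 : ℝ) : ℝ := ((2 : ℕ) : ℝ) * v61 x1 x2

noncomputable def v64 (x1 x2 : ℝ) : ℝ := v5 x1 x2 + v63 x1 x2

noncomputable def v67 (x1 x2 : ℝ) : ℝ := v64 x1 x2 * v66 x1 x2

noncomputable def v72 (x1 x2 : ℝ) : ℝ := v67 x1 x2 * v71 x1 x2

noncomputable def v73 (x1 x2 : ℝ) : ℝ := v5 x1 x2 - v53 x1 x2

noncomputable def v74 (x1 x2 : ℝ) : ℝ := -(v55 x1 x2)

noncomputable def v78 (x1 x2 : ℝ) : ℝ := -(v77 x1 x2)

noncomputable def v81 (x1 x2 : ℝ) : ℝ := -(v80 x1 x2)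

noncomputable def v99 (x1 x2 : ℝ) : ℝ := -(v98 x1 x2)

noncomputable def v100 (x1 x2 : ℝ) : ℝ := v87 x1 x2 * v96 x1 x2

noncomputable def v109 (x1 x2 : ℝ) : ℝ := v59 x1 x2 - v61 x1 x2

noncomputable def v110 (x1 x2 : ℝ) : ℝ := v109 x1 x2 * v105 x1 x2

noncomputable def v111 (x1 x2 : ℝ) : ℝ := v72 x1 x2 + v110 x1 x2

noncomputable def v112 (x1 x2 : ℝ) : ℝ := -(v111 x1 x2)

noncomputable def v113 (x1 x2 : ℝ) : ℝ := -(v100 x1 x2)

noncomputable def v118 (x1 x2 : ℝ) : ℝ := -(v117 x1 x2)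

noncomputable def v125 (x1 x2 : ℝ) : ℝ := v7 x1 x2 * v20 x1 x2

noncomputable def v127 (x1 x2 : ℝ) : ℝ := v19 x1 x2 * v0 x1 x2

noncomputable def v129 (x1 x2 : ℝ) : ℝ := v125 x1 x2 - v127 x1 x2

noncomputable def v131 (x1 x2 : ℝ) : ℝ := v129 x1 x2 * v122 x1 x2

noncomputable def v133 (x1 x2 : ℝ) : ℝ := v131 x1 x2 - v9 x1 x2

noncomputable def v137 (x1 x2 : ℝ) : ℝ := v20 x1 x2 - v3 x1 x2

noncomputable def v162 (x1 x2 : ℝ) : ℝ := v52 x1 x2 - v3 x1 x2

structure Cx (x1 x2 : ℝ) : Prop where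
  hc : v7 x1 x2 ^ 2 + x1 ^ 2 = 1
  p23 : 0 < v23 x1 x2
  p49 : 0 < v49 x1 x2
  p60 : 0 < v60 x1 x2
  p75 : 0 < v75 x1 x2
  p70 : 0 < v70 x1 x2
  p94 : 0 < v94 x1 x2
  p106 : 0 < v106 x1 x2
  p108 : 0 < v108 x1 x2
  p32 : 0 < v32 x1 x2

variable {x1 x2 : ℝ}

theorem s3q (x1 x2 : ℝ) : v2 x1 x2 ^ 2 = 3 := by
  rw [v2]; exact s3sq

theorem s3ne (x1 x2 : ℝ) : v2 x1 x2 ≠ 0 := by
  rw [v2]; positivity

theorem s1 (c : Cx x1 x2) : v1 x1 x2 = v19 x1 x2 + v27 x1 x2 * v39 x1 x2 := by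
  simp only [v1, v5, v11, v19, v27, v39]
  (try push_cast)
  first | ring | grind

theorem s22 (c : Cx x1 x2) : v22 x1 x2 = v45 x1 x2 + v27 x1 x2 * v47 x1 x2 := by
  have a0 : (v1 x1 x2 + v19 x1 x2) * v1 x1 x2 = (v1 x1 x2 + v19 x1 x2) * (v19 x1 x2 + v27 x1 x2 * v39 x1 x2) := congrArg (fun z => (v1 x1 x2 + v19 x1 x2) * z) (s1 c)
  try simp only [v1, v5, v11, v19, v22, v27, v39, v45, v46, v47] at a0
  simp only [v1, v5, v11, v19, v22, v27, v39, v45, v46, v47]
  (try push_cast at a0 ⊢)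
  first | linear_combination a0 | ring | grind

theorem s23 (c : Cx x1 x2) : v23 x1 x2 = v48 x1 x2 + v27 x1 x2 * v46 x1 x2 := by
  have a1 := s22 c
  try simp only [v1, v5, v11, v19, v23, v27, v46, v47, v48] at a1
  simp only [v1, v5, v11, v19, v23, v27, v46, v47, v48]
  (try push_cast at a1 ⊢)
  first | linear_combination -a1 | ring | grind

theorem q24 (c : Cx x1 x2) : v48 x1 x2 = v20 x1 x2 ^ 2 := by
  have hc := c.hc
  have h3 := s3q x1 x2
  simp only [v0, v3, v5, v11, v13, v15, v17, v19, v20, v45, v48] at hc ⊢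
  push_cast at hc ⊢
  grind

theorem s24 (c : Cx x1 x2) : v24 x1 x2 = v20 x1 x2 + v27 x1 x2 * v51 x1 x2 := by
  have a0 := s23 c
  have e : 0 < Real.sqrt (v23 x1 x2) + v20 x1 x2 := by
    have e := c.p49
    simp only [v0, v5, v15, v20, v23, v24, v49] at e ⊢
    push_cast at e ⊢
    linarith
  have b := sl_sqrt a0 (q24 c) (le_of_lt c.p23) e
  clear a0
  try simp only [v0, v1, v5, v11, v15, v19, v20, v23, v24, v27, v46, v48, v49, v50, v51] at b
  simp only [v0, v1, v5, v11, v15, v19, v20, v23, v24, v27, v46, v48, v49, v50, v51]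
  (try push_cast at b ⊢)
  first | linear_combination b | ring | grind

theorem s25 (c : Cx x1 x2) : v25 x1 x2 = v41 x1 x2 + v27 x1 x2 * v39 x1 x2 := by
  have a0 := s1 c
  try simp only [v1, v5, v11, v19, v25, v27, v39, v41] at a0
  simp only [v1, v5, v11, v19, v25, v27, v39, v41]
  (try push_cast at a0 ⊢)
  first | linear_combination a0 | ring | grind

theorem s26 (c : Cx x1 x2) : v26 x1 x2 = v52 x1 x2 + v27 x1 x2 * v51 x1 x2 := by
  have a0 := s24 c
  try simp only [v0, v1, v11, v15, v19, v20, v26, v27, v52] at a0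
  simp only [v0, v1, v11, v15, v19, v20, v26, v27, v52]
  (try push_cast at a0 ⊢)
  first | linear_combination a0 | ring | grind

theorem s35 (c : Cx x1 x2) : v35 x1 x2 = v42 x1 x2 + v27 x1 x2 * v44 x1 x2 := by
  have a0 : (v25 x1 x2 + v41 x1 x2) * v25 x1 x2 = (v25 x1 x2 + v41 x1 x2) * (v41 x1 x2 + v27 x1 x2 * v39 x1 x2) := congrArg (fun z => (v25 x1 x2 + v41 x1 x2) * z) (s25 c)
  try simp only [v1, v5, v11, v19, v25, v27, v35, v39, v41, v42, v43, v44] at a0
  simp only [v1, v5, v11, v19, v25, v27, v35, v39, v41, v42, v43, v44]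
  (try push_cast at a0 ⊢)
  first | linear_combination a0 | ring | grind

theorem s36 (c : Cx x1 x2) : v36 x1 x2 = v53 x1 x2 + v27 x1 x2 * v55 x1 x2 := by
  have a0 : (v26 x1 x2 + v52 x1 x2) * v26 x1 x2 = (v26 x1 x2 + v52 x1 x2) * (v52 x1 x2 + v27 x1 x2 * v51 x1 x2) := congrArg (fun z => (v26 x1 x2 + v52 x1 x2) * z) (s26 c)
  try simp only [v0, v1, v11, v15, v19, v20, v26, v27, v36, v52, v53, v54, v55] at a0
  simp only [v0, v1, v11, v15, v19, v20, v26, v27, v36, v52, v53, v54, v55]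
  (try push_cast at a0 ⊢)
  first | linear_combination a0 | ring | grind

theorem s37 (c : Cx x1 x2) : v37 x1 x2 = v56 x1 x2 + v27 x1 x2 * v57 x1 x2 := by
  have a0 := s35 c
  have a1 := s36 c
  try simp only [v1, v11, v19, v25, v27, v37, v41, v43, v44, v56, v57] at a0
  try simp only [v1, v11, v19, v25, v27, v37, v41, v43, v44, v56, v57] at a1
  simp only [v1, v11, v19, v25, v27, v37, v41, v43, v44, v56, v57]
  (try push_cast at a0 a1 ⊢)
  first | linear_combination a0 + a1 | ring | grind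

theorem s38 (c : Cx x1 x2) : v38 x1 x2 = v58 x1 x2 + v27 x1 x2 * v57 x1 x2 := by
  have a0 := s37 c
  try simp only [v1, v5, v11, v19, v25, v27, v37, v38, v41, v43, v56, v57, v58] at a0
  simp only [v1, v5, v11, v19, v25, v27, v37, v38, v41, v43, v56, v57, v58]
  (try push_cast at a0 ⊢)
  first | linear_combination a0 | ring | grind

theorem s60 (c : Cx x1 x2) : v60 x1 x2 = v73 x1 x2 + v27 x1 x2 * v74 x1 x2 := by
  have a1 := s36 c
  try simp only [v1, v5, v11, v19, v27, v60, v73, v74] at a1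
  simp only [v1, v5, v11, v19, v27, v60, v73, v74]
  (try push_cast at a1 ⊢)
  first | linear_combination -a1 | ring | grind

theorem q61 (c : Cx x1 x2) : v73 x1 x2 = v62 x1 x2 ^ 2 := by
  have hc := c.hc
  have h3 := s3q x1 x2
  simp only [v0, v3, v5, v11, v13, v15, v17, v20, v52, v53, v62, v73] at hc ⊢
  push_cast at hc ⊢
  grind

theorem s61 (c : Cx x1 x2) : v61 x1 x2 = v62 x1 x2 + v27 x1 x2 * v78 x1 x2 := by
  have a0 := s60 c
  have e : 0 < Real.sqrt (v60 x1 x2) + v62 x1 x2 := by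
    have e := c.p75
    simp only [v5, v11, v60, v61, v62, v75] at e ⊢
    push_cast at e ⊢
    linarith
  have b := sl_sqrt a0 (q61 c) (le_of_lt c.p60) e
  clear a0
  try simp only [v1, v5, v11, v19, v27, v60, v61, v62, v73, v74, v75, v76, v77, v78] at b
  simp only [v1, v5, v11, v19, v27, v60, v61, v62, v73, v74, v75, v76, v77, v78]
  (try push_cast at b ⊢)
  first | linear_combination b | ring | grind

theorem s63 (c : Cx x1 x2) : v63 x1 x2 = v79 x1 x2 + v27 x1 x2 * v81 x1 x2 := by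
  have a0 := s61 c
  try simp only [v1, v11, v19, v27, v62, v63, v78, v79, v80, v81] at a0
  simp only [v1, v11, v19, v27, v62, v63, v78, v79, v80, v81]
  (try push_cast at a0 ⊢)
  first | linear_combination (2 : ℝ) * a0 | ring | grind

theorem s64 (c : Cx x1 x2) : v64 x1 x2 = v82 x1 x2 + v27 x1 x2 * v81 x1 x2 := by
  have a1 := s63 c
  try simp only [v1, v5, v11, v19, v27, v62, v63, v64, v79, v80, v81, v82] at a1
  simp only [v1, v5, v11, v19, v27, v62, v63, v64, v79, v80, v81, v82]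
  (try push_cast at a1 ⊢)
  first | linear_combination a1 | ring | grind

theorem s65 (c : Cx x1 x2) : v65 x1 x2 = v83 x1 x2 + v27 x1 x2 * v84 x1 x2 := by
  have a1 : (v2 x1 x2) * v26 x1 x2 = (v2 x1 x2) * (v52 x1 x2 + v27 x1 x2 * v51 x1 x2) := congrArg (fun z => (v2 x1 x2) * z) (s26 c)
  try simp only [v0, v1, v2, v11, v15, v19, v20, v26, v27, v52, v65, v83, v84] at a1
  simp only [v0, v1, v2, v11, v15, v19, v20, v26, v27, v52, v65, v83, v84]
  (try push_cast at a1 ⊢)
  first | linear_combination a1 | ring | grind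

theorem s66 (c : Cx x1 x2) : v66 x1 x2 = v85 x1 x2 + v27 x1 x2 * v86 x1 x2 := by
  have a0 := s65 c
  have a1 := s61 c
  try simp only [v1, v11, v19, v27, v62, v66, v78, v85, v86] at a0
  try simp only [v1, v11, v19, v27, v62, v66, v78, v85, v86] at a1
  simp only [v1, v11, v19, v27, v62, v66, v78, v85, v86]
  (try push_cast at a0 a1 ⊢)
  first | linear_combination a0 - a1 | ring | grind

theorem s67 (c : Cx x1 x2) : v67 x1 x2 = v87 x1 x2 + v27 x1 x2 * v91 x1 x2 := by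
  have a0 : (v66 x1 x2) * v64 x1 x2 = (v66 x1 x2) * (v82 x1 x2 + v27 x1 x2 * v81 x1 x2) := congrArg (fun z => (v66 x1 x2) * z) (s64 c)
  have a1 : (v82 x1 x2) * v66 x1 x2 = (v82 x1 x2) * (v85 x1 x2 + v27 x1 x2 * v86 x1 x2) := congrArg (fun z => (v82 x1 x2) * z) (s66 c)
  try simp only [v1, v5, v11, v19, v27, v62, v63, v64, v66, v67, v79, v80, v81, v82, v85, v86, v87, v88, v90, v91] at a0
  try simp only [v1, v5, v11, v19, v27, v62, v63, v64, v66, v67, v79, v80, v81, v82, v85, v86, v87, v88, v90, v91] at a1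
  simp only [v1, v5, v11, v19, v27, v62, v63, v64, v66, v67, v79, v80, v81, v82, v85, v86, v87, v88, v90, v91]
  (try push_cast at a0 a1 ⊢)
  first | linear_combination a0 + a1 | ring | grind

theorem s68 (c : Cx x1 x2) : v68 x1 x2 = v92 x1 x2 + v27 x1 x2 * v84 x1 x2 := by
  have a1 := s65 c
  try simp only [v1, v5, v11, v19, v27, v68, v92] at a1
  simp only [v1, v5, v11, v19, v27, v68, v92]
  (try push_cast at a1 ⊢)
  first | linear_combination a1 | ring | grind

theorem s69 (c : Cx x1 x2) : v69 x1 x2 = v93 x1 x2 + v27 x1 x2 * v86 x1 x2 := by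
  have a0 := s68 c
  have a1 := s61 c
  try simp only [v1, v5, v11, v19, v27, v62, v68, v69, v78, v86, v92, v93] at a0
  try simp only [v1, v5, v11, v19, v27, v62, v68, v69, v78, v86, v92, v93] at a1
  simp only [v1, v5, v11, v19, v27, v62, v68, v69, v78, v86, v92, v93]
  (try push_cast at a0 a1 ⊢)
  first | linear_combination a0 - a1 | ring | grind

theorem s70 (c : Cx x1 x2) : v70 x1 x2 = v94 x1 x2 + v27 x1 x2 * v95 x1 x2 := by
  have a0 := s69 c
  try simp only [v1, v5, v11, v19, v27, v62, v68, v69, v70, v86, v92, v93, v94, v95] at a0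
  simp only [v1, v5, v11, v19, v27, v62, v68, v69, v70, v86, v92, v93, v94, v95]
  (try push_cast at a0 ⊢)
  first | linear_combination (2 : ℝ) * a0 | ring | grind

theorem s71 (c : Cx x1 x2) : v71 x1 x2 = v96 x1 x2 + v27 x1 x2 * v99 x1 x2 := by
  have a0 := s70 c
  have b := sl_inv a0 (c.p70).ne' (c.p94).ne'
  clear a0
  try simp only [v1, v5, v11, v19, v27, v62, v68, v69, v70, v71, v86, v92, v93, v94, v95, v96, v97, v98, v99] at b
  simp only [v1, v5, v11, v19, v27, v62, v68, v69, v70, v71, v86, v92, v93, v94, v95, v96, v97, v98, v99]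
  (try push_cast at b ⊢)
  first | linear_combination b | ring | grind

theorem s72 (c : Cx x1 x2) : v72 x1 x2 = v100 x1 x2 + v27 x1 x2 * v104 x1 x2 := by
  have a0 : (v71 x1 x2) * v67 x1 x2 = (v71 x1 x2) * (v87 x1 x2 + v27 x1 x2 * v91 x1 x2) := congrArg (fun z => (v71 x1 x2) * z) (s67 c)
  have a1 : (v87 x1 x2) * v71 x1 x2 = (v87 x1 x2) * (v96 x1 x2 + v27 x1 x2 * v99 x1 x2) := congrArg (fun z => (v87 x1 x2) * z) (s71 c)
  try simp only [v1, v11, v19, v27, v72, v91, v99, v100, v101, v102, v104] at a0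
  try simp only [v1, v11, v19, v27, v72, v91, v99, v100, v101, v102, v104] at a1
  simp only [v1, v11, v19, v27, v72, v91, v99, v100, v101, v102, v104]
  (try push_cast at a0 a1 ⊢)
  first | linear_combination a0 + a1 | ring | grind

theorem s119 (c : Cx x1 x2) : v119 x1 x2 = v125 x1 x2 + v27 x1 x2 * v126 x1 x2 := by
  have a1 : (v7 x1 x2) * v24 x1 x2 = (v7 x1 x2) * (v20 x1 x2 + v27 x1 x2 * v51 x1 x2) := congrArg (fun z => (v7 x1 x2) * z) (s24 c)
  try simp only [v0, v1, v11, v15, v19, v20, v27, v119, v125, v126] at a1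
  simp only [v0, v1, v11, v15, v19, v20, v27, v119, v125, v126]
  (try push_cast at a1 ⊢)
  first | linear_combination a1 | ring | grind

theorem s120 (c : Cx x1 x2) : v120 x1 x2 = v127 x1 x2 + v27 x1 x2 * v128 x1 x2 := by
  have a0 : (v0 x1 x2) * v1 x1 x2 = (v0 x1 x2) * (v19 x1 x2 + v27 x1 x2 * v39 x1 x2) := congrArg (fun z => (v0 x1 x2) * z) (s1 c)
  try simp only [v0, v1, v5, v11, v19, v27, v39, v120, v127, v128] at a0
  simp only [v0, v1, v5, v11, v19, v27, v39, v120, v127, v128]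
  (try push_cast at a0 ⊢)
  first | linear_combination a0 | ring | grind

theorem s121 (c : Cx x1 x2) : v121 x1 x2 = v129 x1 x2 + v27 x1 x2 * v130 x1 x2 := by
  have a0 := s119 c
  have a1 := s120 c
  try simp only [v0, v1, v11, v19, v27, v121, v128, v129, v130] at a0
  try simp only [v0, v1, v11, v19, v27, v121, v128, v129, v130] at a1
  simp only [v0, v1, v11, v19, v27, v121, v128, v129, v130]
  (try push_cast at a0 a1 ⊢)
  first | linear_combination a0 - a1 | ring | grind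

theorem s123 (c : Cx x1 x2) : v123 x1 x2 = v131 x1 x2 + v27 x1 x2 * v132 x1 x2 := by
  have a0 : (v122 x1 x2) * v121 x1 x2 = (v122 x1 x2) * (v129 x1 x2 + v27 x1 x2 * v130 x1 x2) := congrArg (fun z => (v122 x1 x2) * z) (s121 c)
  try simp only [v0, v1, v11, v19, v27, v121, v123, v129, v130, v131, v132] at a0
  simp only [v0, v1, v11, v19, v27, v121, v123, v129, v130, v131, v132]
  (try push_cast at a0 ⊢)
  first | linear_combination a0 | ring | grind

theorem s124 (c : Cx x1 x2) : v124 x1 x2 = v133 x1 x2 + v27 x1 x2 * v132 x1 x2 := by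
  have a0 := s123 c
  try simp only [v1, v9, v11, v19, v27, v124, v133] at a0
  simp only [v1, v9, v11, v19, v27, v124, v133]
  (try push_cast at a0 ⊢)
  first | linear_combination a0 | ring | grind

theorem s134 (c : Cx x1 x2) : v134 x1 x2 = v162 x1 x2 + v27 x1 x2 * v51 x1 x2 := by
  have a0 := s26 c
  try simp only [v0, v1, v2, v3, v11, v15, v19, v20, v26, v27, v52, v134, v162] at a0
  simp only [v0, v1, v2, v3, v11, v15, v19, v20, v26, v27, v52, v134, v162]
  (try push_cast at a0 ⊢)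
  first | linear_combination a0 | ring | grind

theorem s135 (c : Cx x1 x2) : v135 x1 x2 = v137 x1 x2 + v27 x1 x2 * v51 x1 x2 := by
  have a0 := s24 c
  try simp only [v0, v1, v2, v3, v11, v15, v19, v20, v27, v135, v137] at a0
  simp only [v0, v1, v2, v3, v11, v15, v19, v20, v27, v135, v137]
  (try push_cast at a0 ⊢)
  first | linear_combination a0 | ring | grind

theorem bD (c : Cx x1 x2) : v58 x1 x2 = 0 := by
  have hc := c.hc
  have h3 := s3q x1 x2
  simp only [v0, v3, v5, v11, v13, v15, v17, v19, v20, v41, v42, v52, v53, v56, v58] at hc ⊢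
  push_cast at hc ⊢
  grind

theorem sD (c : Cx x1 x2) : v38 x1 x2 = v27 x1 x2 * v57 x1 x2 := by
  have h := s38 c
  rw [bD c, zero_add] at h
  exact h

theorem s112 (c : Cx x1 x2) : v112 x1 x2 = v113 x1 x2 + v27 x1 x2 * v118 x1 x2 := by
  have hA := s72 c
  have hd := sD c
  have hs := c.p106
  have hc : v61 x1 x2 ^ 2 = v60 x1 x2 := by
    rw [v61]; exact Real.sq_sqrt (le_of_lt c.p60)
  have hx : v59 x1 x2 - v61 x1 x2 = v38 x1 x2 * (v106 x1 x2)⁻¹ := by
    have g : v59 x1 x2 ^ 2 - v61 x1 x2 ^ 2 = v38 x1 x2 := by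
      rw [hc]; simp only [v0, v1, v5, v25, v26, v35, v36, v37, v38, v59, v60, v106]; push_cast; ring
    have g3 : v106 x1 x2 = v59 x1 x2 + v61 x1 x2 := by
      simp only [v0, v1, v5, v25, v26, v35, v36, v37, v38, v59, v60, v106]; try push_cast
      try ring
    have g2 : 0 < v59 x1 x2 + v61 x1 x2 := by rw [← g3]; exact hs
    rw [g3]; exact diff_of_sq g g2
  have hy : v105 x1 x2 * (v59 x1 x2 - v61 x1 x2) = v105 x1 x2 * (v38 x1 x2 * (v106 x1 x2)⁻¹) := congrArg (fun z => v105 x1 x2 * z) hx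
  have hK : v105 x1 x2 * (v106 x1 x2)⁻¹ * v38 x1 x2 = v105 x1 x2 * (v106 x1 x2)⁻¹ * (v27 x1 x2 * v57 x1 x2) := congrArg (fun z => v105 x1 x2 * (v106 x1 x2)⁻¹ * z) hd
  try simp only [v1, v5, v11, v19, v25, v27, v37, v38, v41, v43, v57, v59, v104, v106, v109, v110, v111, v112, v113, v114, v115, v116, v117, v118] at hA
  try simp only [v1, v5, v11, v19, v25, v27, v37, v38, v41, v43, v57, v59, v104, v106, v109, v110, v111, v112, v113, v114, v115, v116, v117, v118] at hy
  try simp only [v1, v5, v11, v19, v25, v27, v37, v38, v41, v43, v57, v59, v104, v106, v109, v110, v111, v112, v113, v114, v115, v116, v117, v118] at hK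
  simp only [v1, v5, v11, v19, v25, v27, v37, v38, v41, v43, v57, v59, v104, v106, v109, v110, v111, v112, v113, v114, v115, v116, v117, v118]
  (try push_cast at hA hy hK ⊢)
  first | linear_combination -(hA + hy + hK) | grind

theorem bE (c : Cx x1 x2) : v133 x1 x2 = 0 := by
  have hc := c.hc
  have h3 := s3q x1 x2
  have g0 : v2 x1 x2 ≠ 0 := s3ne x1 x2
  simp only [v0, v3, v9, v11, v13, v15, v17, v19, v20, v122, v125, v127, v129, v131, v133] at hc ⊢
  push_cast at hc ⊢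
  grind

theorem hE (c : Cx x1 x2) : v124 x1 x2 = v27 x1 x2 * v132 x1 x2 := by
  have h := s124 c
  rw [bE c, zero_add] at h
  exact h

theorem bS (c : Cx x1 x2) : v19 x1 x2 - v34 x1 x2 - v113 x1 x2 = 0 := by
  have hc := c.hc
  have h3 := s3q x1 x2
  have g0 := (c.p32).ne'
  have g1 := (c.p94).ne'
  simp only [v0, v3, v5, v11, v13, v15, v17, v19, v20, v28, v29, v30, v31, v32, v33, v34, v52, v62, v79, v82, v83, v85, v87, v92, v93, v94, v96, v100, v113] at hc g0 g1 ⊢
  push_cast at hc g0 g1 ⊢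
  grind

theorem hS (c : Cx x1 x2) : v1 x1 x2 - v34 x1 x2 - v112 x1 x2 = v27 x1 x2 * v136 x1 x2 := by
  have a3 := s1 c
  have a2 := s112 c
  have b := bS c
  try simp only [v1, v5, v11, v19, v27, v39, v104, v111, v112, v113, v117, v118, v136] at a3
  try simp only [v1, v5, v11, v19, v27, v39, v104, v111, v112, v113, v117, v118, v136] at a2
  try simp only [v1, v5, v11, v19, v27, v39, v104, v111, v112, v113, v117, v118, v136] at b
  try simp only [v1, v5, v11, v19, v27, v39, v104, v111, v112, v113, v117, v118, v136]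
  (try push_cast at a3 a2 b ⊢)
  first | linear_combination a3 - a2 + b | grind

theorem bC (c : Cx x1 x2) : v0 x1 x2 * v19 x1 x2 - v137 x1 x2 * v34 x1 x2 = 0 := by
  have hc := c.hc
  have h3 := s3q x1 x2
  have g0 := (c.p32).ne'
  simp only [v0, v3, v5, v11, v13, v15, v17, v19, v20, v28, v29, v30, v31, v32, v33, v34, v137] at hc g0 ⊢
  push_cast at hc g0 ⊢
  grind

theorem hC (c : Cx x1 x2) : v0 x1 x2 * v1 x1 x2 - v135 x1 x2 * v34 x1 x2 = v27 x1 x2 * v139 x1 x2 := by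
  have a2 : v0 x1 x2 * v1 x1 x2 = v0 x1 x2 * (v19 x1 x2 + v27 x1 x2 * v39 x1 x2) := congrArg (fun z => v0 x1 x2 * z) (s1 c)
  have a3 : v34 x1 x2 * v135 x1 x2 = v34 x1 x2 * (v137 x1 x2 + v27 x1 x2 * v51 x1 x2) := congrArg (fun z => v34 x1 x2 * z) (s135 c)
  have b := bC c
  try simp only [v0, v1, v2, v3, v5, v11, v15, v19, v20, v27, v39, v128, v135, v137, v138, v139] at a2
  try simp only [v0, v1, v2, v3, v5, v11, v15, v19, v20, v27, v39, v128, v135, v137, v138, v139] at a3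
  try simp only [v0, v1, v2, v3, v5, v11, v15, v19, v20, v27, v39, v128, v135, v137, v138, v139] at b
  simp only [v0, v1, v2, v3, v5, v11, v15, v19, v20, v27, v39, v128, v135, v137, v138, v139]
  (try push_cast at a2 a3 b ⊢)
  first | linear_combination a2 - a3 + b | grind

theorem hT (x1 x2 : ℝ) : v135 x1 x2 = v0 x1 x2 + v134 x1 x2 := by
  simp only [v0, v2, v3, v26, v134, v135]
  push_cast
  ring

theorem hG (c : Cx x1 x2) : (-v134 x1 x2) * v1 x1 x2 - v135 x1 x2 * (-v112 x1 x2) = v27 x1 x2 * v143 x1 x2 := by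
  have b := hC c
  have m0 : v135 x1 x2 * (v1 x1 x2 - v34 x1 x2 - v112 x1 x2) = v135 x1 x2 * (v27 x1 x2 * v136 x1 x2) := congrArg (fun z => v135 x1 x2 * z) (hS c)
  have m1 : v1 x1 x2 * v135 x1 x2 = v1 x1 x2 * (v0 x1 x2 + v134 x1 x2) := congrArg (fun z => v1 x1 x2 * z) (hT x1 x2)
  try simp only [v0, v1, v2, v3, v5, v11, v19, v26, v27, v104, v111, v112, v117, v128, v134, v135, v136, v139, v142, v143] at b
  try simp only [v0, v1, v2, v3, v5, v11, v19, v26, v27, v104, v111, v112, v117, v128, v134, v135, v136, v139, v142, v143] at m0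
  try simp only [v0, v1, v2, v3, v5, v11, v19, v26, v27, v104, v111, v112, v117, v128, v134, v135, v136, v139, v142, v143] at m1
  try simp only [v0, v1, v2, v3, v5, v11, v19, v26, v27, v104, v111, v112, v117, v128, v134, v135, v136, v139, v142, v143]
  (try push_cast at b m0 m1 ⊢)
  first | linear_combination b - m0 + m1 | grind

theorem core (c : Cx x1 x2) (hW : 0 ≤ v27 x1 x2) (hWQ : 0 ≤ v27 x1 x2 * v146 x1 x2) (h1 : 0 ≤ v135 x1 x2) (h2 : 0 ≤ (-v134 x1 x2)) (h3 : v135 x1 x2 + (-v134 x1 x2) ≤ Pool.Agent.StripNear.h0) :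
    0 ≤ starn_v (v124 x1 x2) (v135 x1 x2) ((-v134 x1 x2)) (v1 x1 x2) ((-v112 x1 x2)) (v34 x1 x2) := by
  have hD : v1 x1 x2 + (-v112 x1 x2) - v34 x1 x2 = v27 x1 x2 * v136 x1 x2 := by
    have b := hS c
    linear_combination b
  have k := starn_ge hW h1 h2 h3 (hE c) hD (hG c)
  have f1 : (-v134 x1 x2) = v144 x1 x2 := by
    simp only [v0, v2, v3, v26, v134, v135, v144]
    try (push_cast; ring)
  refine le_trans hWQ (le_trans (le_of_eq ?_) k)
  rw [v146]
  rw [f1]

end Pool.Agent.Strip051.LB.ChB00U_pp_012
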